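import Pool.Agent.W680.WH.Stm

/-!
# Project WHH: products of lifts (S_LMU)
-/

set_option autoImplicit false

open scoped ComplexConjugate InnerProductSpace
open ContinuousLinearMap Filter

namespace Pool.Agent.W604.WH

open Pool.Agent.W680.WH

/-- the unit attached to a lift -/
noncomputable def mkU (hB : S_BLA) (V d : E →L[ℂ] E) (h1 : adjoint V * V = 1)
    (h2 : V * adjoint V = 1) : (E2 →L[ℂ] E2)ˣ where
  val := blk V (V * d) V
  inv := blk (adjoint V) (-(d * adjoint V)) (adjoint V)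
  val_inv := by
    rw [hB.1, h2]
    have : V * -(d * adjoint V) + V * d * adjoint V = 0 := by noncomm_ring
    rw [this, hB.2.1]
  inv_val := by
    rw [hB.1, h1]
    have : adjoint V * (V * d) + -(d * adjoint V) * V = 0 := by
      have e : adjoint V * (V * d) + -(d * adjoint V) * V
          = (adjoint V * V) * d - d * (adjoint V * V) := by noncomm_ring
      rw [e, h1]; simp
    rw [this, hB.2.1]

lemma adj_mul (A B : E →L[ℂ] E) : adjoint (A * B) = adjoint B * adjoint A := by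
  rw [ContinuousLinearMap.mul_def, adjoint_comp]; rfl

lemma adj_jj (V : E →L[ℂ] E) (h1 : adjoint V * V = 1)
    (h2 : V * adjoint V = 1) (hj : ∀ f, jj (V f) = V (jj f)) (f : E) :
    jj (adjoint V f) = adjoint V (jj f) := by
  have e1 : ∀ g, adjoint V (V g) = g := fun g => by
    have := congrArg (fun A : E →L[ℂ] E => A g) h1
    simpa using this
  have e2 : ∀ g, V (adjoint V g) = g := fun g => by
    have := congrArg (fun A : E →L[ℂ] E => A g) h2
    simpa using this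
  calc jj (adjoint V f) = adjoint V (V (jj (adjoint V f))) := (e1 _).symm
    _ = adjoint V (jj (V (adjoint V f))) := by rw [hj]
    _ = adjoint V (jj f) := by rw [e2]

theorem lmu (hM : S_MOBC) (hG : S_MOBG) (hB : S_BLA) (hBM : S_BLM) (hJ : S_OPJ) : S_LMU := by
  have hT : ∀ a : ℂ, ‖a‖ < 1 → IsUnit (1 - a • T) := hBM.2.1
  have jadd : ∀ f g, jj (f + g) = jj f + jj g := hJ.2.2.2.2.2.2.1
  have jsmul : ∀ (c : ℂ) f, jj (c • f) = conj c • jj f := hJ.2.2.2.2.2.2.2.1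
  have jneg : ∀ f, jj (-f) = -jj f := fun f => by
    have := jsmul (-1) f
    simpa using this
  obtain ⟨c1, c2, c3⟩ := hM E2 T hT
  constructor
  · intro φ ψ χ V d V' d' hc hL hL'
    obtain ⟨h1, h2, h3, h4, h5, h6⟩ := hL
    obtain ⟨g1, g2, g3, g4, g5, g6⟩ := hL'
    refine ⟨?_, ?_, ?_, ?_, ?_, ?_⟩
    · rw [adj_mul]
      calc adjoint V' * adjoint V * (V * V') = adjoint V' * (adjoint V * V) * V' := by
            noncomm_ring
        _ = 1 := by rw [h1, mul_one, g1]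
    · rw [adj_mul]
      calc V * V' * (adjoint V' * adjoint V) = V * (V' * adjoint V') * adjoint V := by
            noncomm_ring
        _ = 1 := by rw [g2, mul_one, h2]
    · intro f
      change jj (V (V' f)) = V (V' (jj f))
      rw [h3, g3]
    · rw [map_add, adj_mul, adj_mul, adjoint_adjoint, g4, h4]
      noncomm_ring
    · intro f
      change jj (d' f + adjoint V' (d (V' f))) = d' (jj f) + adjoint V' (d (V' (jj f)))
      rw [jadd, g5, adj_jj V' g1 g2 g3, h5, g3]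
    · set G := mkU hB V d h1 h2 with hGdef
      set G1 := mkU hB V' d' g1 g2 with hG1def
      have eG : (G : E2 →L[ℂ] E2) = blk V (V * d) V := rfl
      have eG1 : (G1 : E2 →L[ℂ] E2) = blk V' (V' * d') V' := rfl
      have e1 : blk (V * V') (V * V' * (d' + adjoint V' * d * V')) (V * V')
          = (G : E2 →L[ℂ] E2) * (G1 : E2 →L[ℂ] E2) := by
        rw [eG, eG1, hB.1]
        congr 1
        calc V * V' * (d' + adjoint V' * d * V')
            = V * (V' * d') + V * (V' * adjoint V') * d * V' := by noncomm_ring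
          _ = V * (V' * d') + V * d * V' := by rw [g2, mul_one]
      have hψ : ψ.op T = ((G1⁻¹ : (E2 →L[ℂ] E2)ˣ) : E2 →L[ℂ] E2) * T *
          (((G1⁻¹)⁻¹ : (E2 →L[ℂ] E2)ˣ) : E2 →L[ℂ] E2) := by
        rw [inv_inv, mul_assoc]
        have : T * (G1 : E2 →L[ℂ] E2) = (G1 : E2 →L[ℂ] E2) * ψ.op T := by rw [eG1, g6]
        rw [this, ← mul_assoc, Units.inv_mul, one_mul]
      have hχ : χ.op T = ((G1⁻¹ : (E2 →L[ℂ] E2)ˣ) : E2 →L[ℂ] E2) * φ.op T *
          (G1 : E2 →L[ℂ] E2) := by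
        rw [c2 φ ψ χ hc, hψ, c3 φ (G1⁻¹), inv_inv]
      have h6' : (G : E2 →L[ℂ] E2) * φ.op T = T * (G : E2 →L[ℂ] E2) := by rw [eG, h6]
      rw [e1, hχ]
      calc (G : E2 →L[ℂ] E2) * (G1 : E2 →L[ℂ] E2) * (((G1⁻¹ : (E2 →L[ℂ] E2)ˣ) : E2 →L[ℂ] E2) *
            φ.op T * (G1 : E2 →L[ℂ] E2))
          = (G : E2 →L[ℂ] E2) * ((G1 : E2 →L[ℂ] E2) *
            ((G1⁻¹ : (E2 →L[ℂ] E2)ˣ) : E2 →L[ℂ] E2)) * φ.op T * (G1 : E2 →L[ℂ] E2) := by
            simp only [mul_assoc]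
        _ = T * ((G : E2 →L[ℂ] E2) * (G1 : E2 →L[ℂ] E2)) := by
            rw [Units.mul_inv, mul_one, h6', mul_assoc]
  · intro φ ψ V d hc hL
    obtain ⟨h1, h2, h3, h4, h5, h6⟩ := hL
    refine ⟨?_, ?_, ?_, ?_, ?_, ?_⟩
    · rw [adjoint_adjoint]; exact h2
    · rw [adjoint_adjoint]; exact h1
    · exact adj_jj V h1 h2 h3
    · rw [map_neg, adj_mul, adj_mul, adjoint_adjoint, h4]
      noncomm_ring
    · intro f
      change jj (-(V (d (adjoint V f)))) = -(V (d (adjoint V (jj f))))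
      rw [jneg, h3, h5, adj_jj V h1 h2 h3]
    · set G := mkU hB V d h1 h2 with hGdef
      have eG : (G : E2 →L[ℂ] E2) = blk V (V * d) V := rfl
      have eGi : ((G⁻¹ : (E2 →L[ℂ] E2)ˣ) : E2 →L[ℂ] E2)
          = blk (adjoint V) (-(d * adjoint V)) (adjoint V) := rfl
      have e1 : adjoint V * -(V * d * adjoint V) = -(d * adjoint V) := by
        calc adjoint V * -(V * d * adjoint V) = -((adjoint V * V) * d * adjoint V) := by
              noncomm_ring
          _ = -(d * adjoint V) := by rw [h1, one_mul]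
      rw [e1, ← eGi]
      have hTφ : T = (G : E2 →L[ℂ] E2) * φ.op T * ((G⁻¹ : (E2 →L[ℂ] E2)ˣ) : E2 →L[ℂ] E2) := by
        have h6' : (G : E2 →L[ℂ] E2) * φ.op T = T * (G : E2 →L[ℂ] E2) := by rw [eG, h6]
        rw [h6', mul_assoc, Units.mul_inv, mul_one]
      let ι : Mob := ⟨1, 0, by simp, by simp⟩
      have hι : ι.op T = T := by
        simp [Mob.op, mob, ι]
      have hid : ∀ z : ℂ, ‖z‖ < 1 → ψ.act (φ.act z) = ι.act z := by
        intro z hz
        rw [hG.2.2.1 φ ψ hc z hz]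
        simp [Mob.act, ι]
      have hψφ : ψ.op (φ.op T) = T := by
        rw [← c2 ψ φ ι hid, hι]
      obtain ⟨-, -, b3⟩ := hM E2 (φ.op T) (c1 φ)
      have hψ : ψ.op T = (G : E2 →L[ℂ] E2) * T * ((G⁻¹ : (E2 →L[ℂ] E2)ˣ) : E2 →L[ℂ] E2) := by
        conv_lhs => rw [hTφ]
        rw [b3 ψ G, hψφ]
      calc ((G⁻¹ : (E2 →L[ℂ] E2)ˣ) : E2 →L[ℂ] E2) * ψ.op T
          = ((G⁻¹ : (E2 →L[ℂ] E2)ˣ) : E2 →L[ℂ] E2) * ((G : E2 →L[ℂ] E2) * T *
            ((G⁻¹ : (E2 →L[ℂ] E2)ˣ) : E2 →L[ℂ] E2)) := congrArg _ hψ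
        _
          = (((G⁻¹ : (E2 →L[ℂ] E2)ˣ) : E2 →L[ℂ] E2) * (G : E2 →L[ℂ] E2)) * T *
            ((G⁻¹ : (E2 →L[ℂ] E2)ˣ) : E2 →L[ℂ] E2) := by simp only [mul_assoc]
        _ = T * ((G⁻¹ : (E2 →L[ℂ] E2)ˣ) : E2 →L[ℂ] E2) := by rw [Units.inv_mul, one_mul]

end Pool.Agent.W604.WH
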